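import Pool.Agent.Work.MP_a25450_nt.Table

set_option autoImplicit false

namespace Pool.Agent.Work.MP_a25450_nt

open Finset

/-- numbers whose last `r` digits are powers of two, divisible by `2 ^ r` -/
def T : ℕ → Finset ℕ
  | 0 => {0}
  | r + 1 => (((T r) ×ˢ ({1, 2, 4, 8} : Finset ℕ)).image (fun p => p.1 + p.2 * 10 ^ r)).filter
      (fun x => 2 ^ (r + 1) ∣ x)

/-- the state of `x` after `r` digits -/
def st (M r x : ℕ) : ℕ := (x / 2 ^ r * 3277 ^ r) % M

/-- the total weight -/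
def W (r : ℕ) : ℕ := ∑ x ∈ T r, wgt (st 2048 r x)

theorem T_dvd (r x : ℕ) (hx : x ∈ T r) : 2 ^ r ∣ x := by
  cases r with
  | zero => simp
  | succ r =>
    rw [T, mem_filter] at hx
    exact hx.2

theorem st_lt (M r x : ℕ) (hM : 0 < M) : st M r x < M := Nat.mod_lt _ hM

theorem st_mod (r x : ℕ) : st 4096 r x % 2048 = st 2048 r x := by
  unfold st
  exact Nat.mod_mod_of_dvd _ (by norm_num)

theorem con_eq (r x d : ℕ) (hx : 2 ^ r ∣ x) :
    (if 2 ^ (r + 1) ∣ x + d * 10 ^ r then wgt (st 2048 (r + 1) (x + d * 10 ^ r)) else 0) =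
      con (st 4096 r x) d := by
  obtain ⟨y, rfl⟩ := hx
  have h10 : (10 : ℕ) ^ r = 2 ^ r * 5 ^ r := by rw [← mul_pow]; norm_num
  have e1 : 2 ^ r * y + d * 10 ^ r = 2 ^ r * (y + d * 5 ^ r) := by rw [h10]; ring
  have h2 : 0 < 2 ^ r := by positivity
  have hst : st 4096 r (2 ^ r * y) = (y * 3277 ^ r) % 4096 := by
    unfold st
    rw [Nat.mul_div_cancel_left _ h2]
  set s := (y * 3277 ^ r) % 4096 with hs
  have hpar : ((2 ^ (r + 1) ∣ 2 ^ r * y + d * 10 ^ r) ↔ (s + d) % 2 = 0) := by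
    rw [e1, pow_succ, Nat.mul_dvd_mul_iff_left h2, Nat.dvd_iff_mod_eq_zero]
    have h3 : s % 2 = y % 2 := by
      rw [hs, Nat.mod_mod_of_dvd _ (by norm_num), Nat.mul_mod, Nat.pow_mod]
      norm_num
    have h5 : (5 ^ r) % 2 = 1 := by rw [Nat.pow_mod]; norm_num
    rw [Nat.add_mod y, Nat.mul_mod d, h5, Nat.add_mod s, h3]
    simp [Nat.add_mod]
  unfold con
  rw [hst]
  by_cases h : (s + d) % 2 = 0
  · rw [if_pos (hpar.2 h), if_pos h]
    congr 1
    obtain ⟨z, hz⟩ := (hpar.2 h)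
    have hz' : y + d * 5 ^ r = 2 * z := by
      have h4 : 2 ^ r * (y + d * 5 ^ r) = 2 ^ r * (2 * z) := by
        rw [← e1, hz]; ring
      exact Nat.eq_of_mul_eq_mul_left h2 h4
    have hst2 : st 2048 (r + 1) (2 ^ r * y + d * 10 ^ r) = (z * 3277 ^ (r + 1)) % 2048 := by
      unfold st
      rw [hz, Nat.mul_div_cancel_left _ (by positivity)]
    rw [hst2]
    -- 2 * (z * 3277 ^ r) = y * 3277 ^ r + d * (5 * 3277) ^ r = s + d modulo 4096
    obtain ⟨w, hw⟩ : ∃ w, s + d = 2 * w := ⟨(s + d) / 2, by omega⟩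
    have h5 : 2 * (z * 3277 ^ r) ≡ 2 * w [MOD 4096] := by
      have h6 : 2 * (z * 3277 ^ r) = y * 3277 ^ r + d * (5 * 3277) ^ r := by
        rw [mul_pow]
        calc 2 * (z * 3277 ^ r) = (2 * z) * 3277 ^ r := by ring
          _ = (y + d * 5 ^ r) * 3277 ^ r := by rw [hz']
          _ = _ := by ring
      rw [h6, ← hw]
      have h7 : (5 * 3277) ^ r ≡ 1 [MOD 4096] := by
        have h8 : (5 * 3277) ≡ 1 [MOD 4096] := by decide
        simpa using h8.pow r
      have h9 : y * 3277 ^ r ≡ s [MOD 4096] := (Nat.mod_modEq _ _).symm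
      simpa using h9.add (h7.mul_left d)
    have h6 : z * 3277 ^ r ≡ w [MOD 2048] := by
      have h7 : 2 * (z * 3277 ^ r) ≡ 2 * w [MOD 2 * 2048] := h5
      exact Nat.ModEq.mul_left_cancel' (by norm_num) h7
    rw [hw, Nat.mul_div_cancel_left _ (by norm_num : 0 < 2), pow_succ, ← mul_assoc]
    exact h6.mul_right 3277
  · rw [if_neg (fun hc => h (hpar.1 hc)), if_neg h]

theorem W_succ (r : ℕ) : 1000 * W (r + 1) ≤ 2013 * W r := by
  have h1 : W (r + 1) ≤ ∑ x ∈ T r, (con (st 4096 r x) 1 + con (st 4096 r x) 2 +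
      con (st 4096 r x) 4 + con (st 4096 r x) 8) := by
    unfold W
    rw [T, sum_filter]
    calc ∑ a ∈ ((T r) ×ˢ ({1, 2, 4, 8} : Finset ℕ)).image (fun p => p.1 + p.2 * 10 ^ r),
          (if 2 ^ (r + 1) ∣ a then wgt (st 2048 (r + 1) a) else 0)
        ≤ ∑ p ∈ (T r) ×ˢ ({1, 2, 4, 8} : Finset ℕ),
          (if 2 ^ (r + 1) ∣ p.1 + p.2 * 10 ^ r then wgt (st 2048 (r + 1) (p.1 + p.2 * 10 ^ r))
            else 0) := by
          exact Finset.sum_image_le_of_nonneg (fun _ _ => Nat.zero_le _)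
      _ = ∑ x ∈ T r, ∑ d ∈ ({1, 2, 4, 8} : Finset ℕ), con (st 4096 r x) d := by
          rw [sum_product]
          refine sum_congr rfl fun x hx => sum_congr rfl fun d _ => ?_
          exact con_eq r x d (T_dvd r x hx)
      _ = _ := by
          refine sum_congr rfl fun x _ => ?_
          rw [sum_insert (by decide), sum_insert (by decide), sum_insert (by decide), sum_singleton]
          ring
  calc 1000 * W (r + 1) ≤ 1000 * ∑ x ∈ T r, (con (st 4096 r x) 1 + con (st 4096 r x) 2 +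
      con (st 4096 r x) 4 + con (st 4096 r x) 8) := Nat.mul_le_mul_left _ h1
    _ = ∑ x ∈ T r, 1000 * (con (st 4096 r x) 1 + con (st 4096 r x) 2 +
      con (st 4096 r x) 4 + con (st 4096 r x) 8) := by rw [mul_sum]
    _ ≤ ∑ x ∈ T r, 2013 * wgt (st 2048 r x) := by
        refine sum_le_sum fun x _ => ?_
        have h := test_all (st 4096 r x) (st_lt _ _ _ (by norm_num))
        rwa [st_mod] at h
    _ = 2013 * W r := by rw [← mul_sum]; rfl

theorem W_le (r : ℕ) : 1000 ^ r * W r ≤ 2013 ^ r * W 0 := by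
  induction r with
  | zero => simp
  | succ r ih =>
    calc 1000 ^ (r + 1) * W (r + 1) = 1000 ^ r * (1000 * W (r + 1)) := by ring
      _ ≤ 1000 ^ r * (2013 * W r) := Nat.mul_le_mul_left _ (W_succ r)
      _ = 2013 * (1000 ^ r * W r) := by ring
      _ ≤ 2013 * (2013 ^ r * W 0) := Nat.mul_le_mul_left _ ih
      _ = 2013 ^ (r + 1) * W 0 := by ring

theorem card_T (r : ℕ) : ((T r).card : ℝ) ≤ (2013 / 1000) ^ r * W 0 := by
  have h1 : (T r).card ≤ W r := by
    rw [card_eq_sum_ones]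
    exact sum_le_sum fun x _ => one_le_wgt _ (st_lt _ _ _ (by norm_num))
  have h2 : (1000 : ℝ) ^ r * W r ≤ 2013 ^ r * W 0 := by exact_mod_cast W_le r
  have h3 : ((T r).card : ℝ) ≤ W r := by exact_mod_cast h1
  rw [div_pow, div_mul_eq_mul_div, le_div_iff₀ (by positivity)]
  calc ((T r).card : ℝ) * 1000 ^ r ≤ W r * 1000 ^ r := by gcongr
    _ = 1000 ^ r * W r := by ring
    _ ≤ _ := h2

/-- every decimal digit is a power of two -/
def Powerful (m : ℕ) : Prop := ∀ d ∈ Nat.digits 10 m, d = 1 ∨ d = 2 ∨ d = 4 ∨ d = 8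

theorem digit_mem {m i : ℕ} (hm : Powerful m) (hi : 10 ^ i ≤ m) :
    m / 10 ^ i % 10 ∈ ({1, 2, 4, 8} : Finset ℕ) := by
  have hlen : i < (Nat.digits 10 m).length := by
    rw [Nat.lt_digits_length_iff (by norm_num)]
    exact hi
  have h1 : (Nat.digits 10 m).getD i 0 = m / 10 ^ i % 10 := Nat.getD_digits m i (by norm_num)
  rw [List.getD_eq_getElem _ _ hlen] at h1
  have h2 := hm _ (List.getElem_mem hlen)
  rw [h1] at h2
  simp only [mem_insert, mem_singleton]
  exact h2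

theorem mem_T {n : ℕ} (hn : Powerful (2 ^ n)) : ∀ r, r ≤ n → 10 ^ r ≤ 2 ^ n → 2 ^ n % 10 ^ r ∈ T r := by
  intro r
  induction r with
  | zero => intro _ _; simp [T, Nat.mod_one]
  | succ r ih =>
    intro hr h10
    have h10r : 10 ^ r ≤ 2 ^ n := le_trans (Nat.pow_le_pow_right (by norm_num) (Nat.le_succ r)) h10
    rw [T, mem_filter, mem_image]
    refine ⟨⟨(2 ^ n % 10 ^ r, 2 ^ n / 10 ^ r % 10), ?_, ?_⟩, ?_⟩
    · rw [mem_product]
      exact ⟨ih (by omega) h10r, digit_mem hn h10r⟩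
    · show 2 ^ n % 10 ^ r + 2 ^ n / 10 ^ r % 10 * 10 ^ r = 2 ^ n % 10 ^ (r + 1)
      rw [pow_succ, Nat.mod_mul]
      ring
    · have h1 : 2 ^ (r + 1) ∣ 2 ^ n := pow_dvd_pow 2 hr
      have h2 : 2 ^ (r + 1) ∣ 10 ^ (r + 1) := pow_dvd_pow_of_dvd (by norm_num) _
      exact (Nat.dvd_mod_iff h2).2 h1

/-- the order of two modulo powers of five -/
theorem order_five (r k : ℕ) (hk : k ≠ 0) (h : 5 ^ (r + 1) ∣ 2 ^ k - 1) : 4 * 5 ^ r ∣ k := by
  have : Fact (Nat.Prime 5) := ⟨by norm_num⟩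
  have h5 : 5 ∣ 2 ^ k - 1 := (dvd_pow_self 5 (Nat.succ_ne_zero r)).trans h
  have h4 : 4 ∣ k := by
    have h1 : 2 ^ k % 5 = 1 := by
      have h2 : 1 ≤ 2 ^ k := Nat.one_le_two_pow
      omega
    have h3 : 2 ^ k = 16 ^ (k / 4) * 2 ^ (k % 4) := by
      conv_lhs => rw [← Nat.div_add_mod k 4]
      rw [pow_add, pow_mul]
      norm_num
    rw [h3, Nat.mul_mod, Nat.pow_mod] at h1
    norm_num at h1
    have h6 : k % 4 < 4 := Nat.mod_lt _ (by norm_num)
    interval_cases hh : k % 4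
    · omega
    · simp at h1
    · simp at h1
    · simp at h1
  obtain ⟨j, rfl⟩ := h4
  have hj : j ≠ 0 := by rintro rfl; simp at hk
  have h16 : 2 ^ (4 * j) = 16 ^ j := by rw [pow_mul]; norm_num
  rw [h16] at h
  have h7 : padicValNat 5 (16 ^ j - 1 ^ j) = padicValNat 5 (16 - 1) + padicValNat 5 j :=
    padicValNat.pow_sub_pow (p := 5) (x := 16) (y := 1) (by decide) (by norm_num) (by norm_num)
      (by norm_num) hj
  rw [one_pow] at h7
  have h15 : padicValNat 5 (16 - 1) = 1 := by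
    have : (16 - 1 : ℕ) = 5 ^ 1 * 3 := by norm_num
    rw [this, padicValNat.mul (by norm_num) (by norm_num), padicValNat.prime_pow,
      padicValNat.eq_zero_of_not_dvd (by norm_num)]
  have hne : 16 ^ j - 1 ≠ 0 := by
    have : 16 ^ 1 ≤ 16 ^ j := Nat.pow_le_pow_right (by norm_num) (Nat.one_le_iff_ne_zero.2 hj)
    omega
  have h8 : r + 1 ≤ padicValNat 5 (16 ^ j - 1) := (padicValNat_dvd_iff_le hne).1 h
  rw [h7, h15] at h8
  have h9 : 5 ^ r ∣ j := (padicValNat_dvd_iff_le hj).2 (by omega)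
  exact Nat.mul_dvd_mul_left 4 h9

theorem inj_mod (r m n : ℕ) (hm : m < 4 * 5 ^ r) (hn : n < 4 * 5 ^ r)
    (h : 2 ^ m % 10 ^ (r + 1) = 2 ^ n % 10 ^ (r + 1)) : m = n := by
  have key : ∀ a b : ℕ, a < b → b < 4 * 5 ^ r → 2 ^ a % 10 ^ (r + 1) = 2 ^ b % 10 ^ (r + 1) →
      False := by
    intro a b hab hb hh
    have h1 : 10 ^ (r + 1) ∣ 2 ^ b - 2 ^ a :=
      (Nat.modEq_iff_dvd' (Nat.pow_le_pow_right (by norm_num) hab.le)).1 hh
    have h2 : 5 ^ (r + 1) ∣ 2 ^ b - 2 ^ a :=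
      (pow_dvd_pow_of_dvd (by norm_num : 5 ∣ 10) _).trans h1
    have h3 : 2 ^ b - 2 ^ a = 2 ^ a * (2 ^ (b - a) - 1) := by
      rw [Nat.mul_sub, ← pow_add, mul_one]
      congr 2
      omega
    rw [h3] at h2
    have h4 : Nat.Coprime (5 ^ (r + 1)) (2 ^ a) := Nat.Coprime.pow _ _ (by norm_num)
    have h5 := order_five r (b - a) (by omega) (h4.dvd_of_dvd_mul_left h2)
    have h6 := Nat.le_of_dvd (by omega) h5
    omega
  rcases lt_trichotomy m n with h1 | h1 | h1
  · exact absurd h (fun hh => key m n h1 hn hh)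
  · exact h1
  · exact absurd h.symm (fun hh => key n m h1 hm hh)

open Classical in
theorem count_le (N r : ℕ) (hN : N ≤ 4 * 5 ^ r) :
    (((range N).filter fun n => Powerful (2 ^ n)).card : ℝ) ≤
      4 * (r + 1) + (2013 / 1000) ^ (r + 1) * W 0 := by
  have h1 : ((range N).filter fun n => Powerful (2 ^ n)) ⊆
      (range (4 * (r + 1))) ∪ ((range N).filter fun n => Powerful (2 ^ n) ∧ 4 * (r + 1) ≤ n) := by
    intro n hn
    rw [mem_filter] at hn
    rw [mem_union, mem_range, mem_filter]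
    rcases Nat.lt_or_ge n (4 * (r + 1)) with h | h
    · exact Or.inl h
    · exact Or.inr ⟨hn.1, hn.2, h⟩
  have h2 : ((range N).filter fun n => Powerful (2 ^ n) ∧ 4 * (r + 1) ≤ n).card ≤
      (T (r + 1)).card := by
    apply card_le_card_of_injOn (fun n => 2 ^ n % 10 ^ (r + 1))
    · intro n hn
      rw [mem_coe, mem_filter] at hn
      have h3 : 10 ^ (r + 1) ≤ 2 ^ n := by
        calc 10 ^ (r + 1) ≤ 16 ^ (r + 1) := Nat.pow_le_pow_left (by norm_num) _
          _ = 2 ^ (4 * (r + 1)) := by rw [pow_mul]; norm_num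
          _ ≤ 2 ^ n := Nat.pow_le_pow_right (by norm_num) hn.2.2
      exact mem_coe.2 (mem_T hn.2.1 (r + 1) (by omega) h3)
    · intro m hm n hn h
      rw [mem_coe, mem_filter, mem_range] at hm hn
      exact inj_mod r m n (by omega) (by omega) h
  have h3 := card_le_card h1
  have h4 := card_union_le (range (4 * (r + 1)))
    ((range N).filter fun n => Powerful (2 ^ n) ∧ 4 * (r + 1) ≤ n)
  rw [card_range] at h4
  have h5 : (((range N).filter fun n => Powerful (2 ^ n)).card : ℝ) ≤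
      4 * (r + 1) + ((T (r + 1)).card : ℝ) := by
    exact_mod_cast h3.trans (h4.trans (by omega))
  have h6 := card_T (r + 1)
  linarith

end Pool.Agent.Work.MP_a25450_nt
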